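import Mathlib
import Pool.Agent.V7H6.Box.Cor

/-!
# Rational points of bounded height on the line with three orbifold points of large multiplicities

For every `ε > 0` there is `M` such that for all `p, q, r ≥ M` the number of coprime pairs `(a, b)` of
integers with `|a|, |b| ≤ H`, `a` `p`-full, `b` `r`-full and `a - b` `q`-full is
`O (H ^ (s / 2 + ε (1/p + 1/q + 1/r)))`, where `s` is the sum of the two smallest of `1/p`, `1/q`,
`1/r` (`result`).

Proof: the theorem on boxes of radicals (`Pool.Agent.V7H6.Box`). The absolute values of `a`, `b`,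
`a - b` form an abc-triple and their radicals are at most `H ^ (1/p)`, `H ^ (1/r)`,
`(2 H) ^ (1/q)`.
-/

set_option autoImplicit false

namespace Pool.Agent.Results.MP_4c7479_nt.OrbifoldPointsH6

open Pool.Agent.V7H6.Box (Full IsTriple FullTriples ex full_bound exists_bd)

/-- `n` is `m`-full: `l ^ m ∣ n` for every prime `l` dividing `n` -/
def FullInt (m : ℕ) (n : ℤ) : Prop := ∀ l : ℕ, l.Prime → (l : ℤ) ∣ n → (l : ℤ) ^ m ∣ n

/-- the coprime pairs `(a, b)` with `a` `p`-full, `b` `r`-full, `a - b` `q`-full and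
`|a|, |b| ≤ H` -/
def Points (p q r H : ℕ) : Set (ℤ × ℤ) :=
  {x | IsCoprime x.1 x.2 ∧ FullInt p x.1 ∧ FullInt r x.2 ∧ FullInt q (x.1 - x.2) ∧
    |x.1| ≤ H ∧ |x.2| ≤ H}

theorem full_natAbs {m : ℕ} {n : ℤ} (h : FullInt m n) : Full m n.natAbs := by
  intro l hl hd
  have h1 : (l : ℤ) ∣ n := Int.natCast_dvd.2 hd
  have h2 := h l hl h1
  have h3 : ((l ^ m : ℕ) : ℤ) ∣ n := by push_cast; exact h2
  exact Int.natCast_dvd.1 h3

/-- the sum of the two smallest of three numbers is symmetric -/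
theorem ex_symm (p q r : ℕ) : ex q r p = ex p q r ∧ ex q p r = ex p q r ∧ ex p r q = ex p q r := by
  unfold ex
  refine ⟨?_, ?_, ?_⟩ <;>
  · congr 1
    simp only [min_def]
    split_ifs <;> linarith

/-- the maps from triples to points -/
def F (i : Fin 3) (σ : ℤ) (t : ℕ × ℕ × ℕ) : ℤ × ℤ :=
  if i = 0 then (σ * t.2.2, σ * t.2.1) else if i = 1 then (σ * t.2.1, σ * t.2.2)
    else (σ * t.1, -(σ * t.2.1))

/-- the degenerate points -/
def Dg : Set (ℤ × ℤ) := {(0, 1), (0, -1), (1, 0), (-1, 0), (1, 1), (-1, -1)}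

theorem cover {p q r H : ℕ} : Points p q r H ⊆ Dg ∪
    ((F 0 1 '' FullTriples q r p (2 * H) ∪ F 0 (-1) '' FullTriples q r p (2 * H)) ∪
    ((F 1 1 '' FullTriples q p r (2 * H) ∪ F 1 (-1) '' FullTriples q p r (2 * H)) ∪
    (F 2 1 '' FullTriples p r q (2 * H) ∪ F 2 (-1) '' FullTriples p r q (2 * H)))) := by
  rintro ⟨a, b⟩ ⟨hco, ha, hb, hab, haH, hbH⟩
  simp only at hco ha hb hab haH hbH
  have hA := full_natAbs ha
  have hB := full_natAbs hb
  have hC := full_natAbs hab
  rw [abs_le] at haH hbH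
  have hcn : Nat.Coprime a.natAbs b.natAbs := Int.isCoprime_iff_gcd_eq_one.1 hco
  rcases eq_or_ne a 0 with h0 | ha0
  · left
    subst h0
    have h1 : IsUnit b := isCoprime_zero_left.1 hco
    rcases Int.isUnit_iff.1 h1 with h | h <;> subst h <;> simp [Dg]
  rcases eq_or_ne b 0 with h0 | hb0
  · left
    subst h0
    have h1 : IsUnit a := isCoprime_zero_right.1 hco
    rcases Int.isUnit_iff.1 h1 with h | h <;> subst h <;> simp [Dg]
  rcases eq_or_ne a b with h0 | hab0
  · left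
    subst h0
    have h1 : IsUnit a := isCoprime_self.1 hco
    rcases Int.isUnit_iff.1 h1 with h | h <;> subst h <;> simp [Dg]
  right
  have hc1 : Nat.Coprime (a - b).natAbs b.natAbs := by
    have h1 : IsCoprime (a - b) b := by
      have := hco.add_mul_right_left (-1)
      simpa [sub_eq_add_neg] using this
    exact Int.isCoprime_iff_gcd_eq_one.1 h1
  have hc2 : Nat.Coprime (a - b).natAbs a.natAbs := by
    have h1 : IsCoprime (a - b) a := by
      have h2 : IsCoprime (b + (-1) * a) a := (hco.symm.add_mul_right_left (-1))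
      have h3 := h2.neg_left
      have h4 : -(b + (-1) * a) = a - b := by ring
      rwa [h4] at h3
    exact Int.isCoprime_iff_gcd_eq_one.1 h1
  rcases lt_or_gt_of_ne ha0 with ha' | ha' <;> rcases lt_or_gt_of_ne hb0 with hb' | hb'
  · -- both negative
    rcases lt_or_gt_of_ne hab0 with hl | hl
    · -- `|a| > |b|`
      left; right
      refine ⟨((a - b).natAbs, b.natAbs, a.natAbs), ⟨⟨?_, ?_, hc1, ?_⟩, hC, hB, hA, ?_⟩, ?_⟩
      · simp only; omega
      · simp only; omega
      · simp only; omega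
      · simp only; omega
      · simp only [F, if_true]
        ext <;> simp only <;> omega
    · right; left; right
      refine ⟨((a - b).natAbs, a.natAbs, b.natAbs), ⟨⟨?_, ?_, hc2, ?_⟩, hC, hA, hB, ?_⟩, ?_⟩
      · simp only; omega
      · simp only; omega
      · simp only; omega
      · simp only; omega
      · simp only [F, Fin.isValue, one_ne_zero, if_false, if_true]
        ext <;> simp only <;> omega
  · right; right; right
    refine ⟨(a.natAbs, b.natAbs, (a - b).natAbs), ⟨⟨?_, ?_, hcn, ?_⟩, hA, hB, hC, ?_⟩, ?_⟩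
    · simp only; omega
    · simp only; omega
    · simp only; omega
    · simp only; omega
    · simp only [F, Fin.isValue, Fin.reduceEq, if_false]
      ext <;> simp only <;> omega
  · right; right; left
    refine ⟨(a.natAbs, b.natAbs, (a - b).natAbs), ⟨⟨?_, ?_, hcn, ?_⟩, hA, hB, hC, ?_⟩, ?_⟩
    · simp only; omega
    · simp only; omega
    · simp only; omega
    · simp only; omega
    · simp only [F, Fin.isValue, Fin.reduceEq, if_false]
      ext <;> simp only <;> omega
  · rcases lt_or_gt_of_ne hab0 with hl | hl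
    · right; left; left
      refine ⟨((a - b).natAbs, a.natAbs, b.natAbs), ⟨⟨?_, ?_, hc2, ?_⟩, hC, hA, hB, ?_⟩, ?_⟩
      · simp only; omega
      · simp only; omega
      · simp only; omega
      · simp only; omega
      · simp only [F, Fin.isValue, one_ne_zero, if_false, if_true]
        ext <;> simp only <;> omega
    · left; left
      refine ⟨((a - b).natAbs, b.natAbs, a.natAbs), ⟨⟨?_, ?_, hc1, ?_⟩, hC, hB, hA, ?_⟩, ?_⟩
      · simp only; omega
      · simp only; omega
      · simp only; omega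
      · simp only; omega
      · simp only [F, if_true]
        ext <;> simp only <;> omega

/-- **Points of bounded height.** For every `ε > 0` there is `M` such that for all `p, q, r ≥ M` there
is `K` such that for all `H ≥ 1` at most `K H ^ (s / 2 + ε (1/p + 1/q + 1/r))` coprime pairs `(a, b)`
of integers with `|a|, |b| ≤ H` have `a` `p`-full, `b` `r`-full and `a - b` `q`-full, where
`s = min (1/p + 1/q, 1/q + 1/r, 1/r + 1/p)`. -/
theorem result (ε : ℝ) (hε : 0 < ε) : ∃ M : ℕ, ∀ p q r : ℕ, M ≤ p → M ≤ q → M ≤ r →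
    ∃ K : ℝ, ∀ H : ℕ, 1 ≤ H → (Points p q r H).Finite ∧ ((Points p q r H).ncard : ℝ) ≤
      K * (H : ℝ) ^ (min (1 / (p : ℝ) + 1 / q) (min (1 / (q : ℝ) + 1 / r) (1 / (r : ℝ) + 1 / p)) / 2
        + ε * (1 / (p : ℝ) + 1 / q + 1 / r)) := by
  classical
  obtain ⟨M, hM1, hM⟩ := exists_bd ε hε
  refine ⟨3 * M, fun p q r hp hq hr => ?_⟩
  obtain ⟨C1, hC1, hb1⟩ := hM q
  obtain ⟨C3, hC3, hb3⟩ := hM p
  obtain ⟨K1, hK1, h1⟩ := full_bound hε hM1 hC1 hb1 hq hr hp
  obtain ⟨K2, hK2, h2⟩ := full_bound hε hM1 hC1 hb1 hq hp hr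
  obtain ⟨K3, hK3, h3⟩ := full_bound hε hM1 hC3 hb3 hp hr hq
  obtain ⟨e1, e2, e3⟩ := ex_symm p q r
  obtain ⟨E, hE⟩ : ∃ E, E = ex p q r + ε * (1 / (p : ℝ) + 1 / q + 1 / r) := ⟨_, rfl⟩
  have hp0 : (0 : ℝ) < p := by exact_mod_cast (by omega : 0 < p)
  have hq0 : (0 : ℝ) < q := by exact_mod_cast (by omega : 0 < q)
  have hr0 : (0 : ℝ) < r := by exact_mod_cast (by omega : 0 < r)
  have hex : 0 ≤ ex p q r := by unfold ex; positivity
  have hE0 : 0 ≤ E := by rw [hE]; positivity
  refine ⟨6 + (2 * K1 + 2 * K2 + 2 * K3) * 2 ^ E, fun H hH => ?_⟩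
  have hH1 : (1 : ℝ) ≤ H := by exact_mod_cast hH
  obtain ⟨f1, g1⟩ := h1 (2 * H) (by omega)
  obtain ⟨f2, g2⟩ := h2 (2 * H) (by omega)
  obtain ⟨f3, g3⟩ := h3 (2 * H) (by omega)
  have s1 : (1 : ℝ) / q + 1 / r + 1 / p = 1 / p + 1 / q + 1 / r := by ring
  have s2 : (1 : ℝ) / q + 1 / p + 1 / r = 1 / p + 1 / q + 1 / r := by ring
  have s3 : (1 : ℝ) / p + 1 / r + 1 / q = 1 / p + 1 / q + 1 / r := by ring
  rw [e1, s1, ← hE] at g1
  rw [e2, s2, ← hE] at g2
  rw [e3, s3, ← hE] at g3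
  have hpow : (((2 * H : ℕ)) : ℝ) ^ E = 2 ^ E * (H : ℝ) ^ E := by
    push_cast
    rw [Real.mul_rpow (by norm_num) (by linarith)]
  rw [hpow] at g1 g2 g3
  have hDg : Dg.Finite ∧ Dg.ncard ≤ 6 := by
    have hfs : Dg = (({(0, 1), (0, -1), (1, 0), (-1, 0), (1, 1), (-1, -1)} : Finset (ℤ × ℤ)) :
        Set (ℤ × ℤ)) := by
      simp [Dg]
    rw [hfs]
    refine ⟨Finset.finite_toSet _, ?_⟩
    rw [Set.ncard_coe_finset]
    decide
  have hfin := hDg.1.union (((f1.image (F 0 1)).union (f1.image (F 0 (-1)))).union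
    (((f2.image (F 1 1)).union (f2.image (F 1 (-1)))).union
    ((f3.image (F 2 1)).union (f3.image (F 2 (-1))))))
  refine ⟨hfin.subset cover, ?_⟩
  have hcard : ((Points p q r H).ncard : ℝ) ≤ 6 + (2 * ((FullTriples q r p (2 * H)).ncard : ℝ) +
      (2 * ((FullTriples q p r (2 * H)).ncard : ℝ) +
        2 * ((FullTriples p r q (2 * H)).ncard : ℝ))) := by
    have c0 := Set.ncard_le_ncard (cover (p := p) (q := q) (r := r) (H := H)) hfin
    have i1 := Set.ncard_image_le (f := F 0 1) f1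
    have i1' := Set.ncard_image_le (f := F 0 (-1)) f1
    have i2 := Set.ncard_image_le (f := F 1 1) f2
    have i2' := Set.ncard_image_le (f := F 1 (-1)) f2
    have i3 := Set.ncard_image_le (f := F 2 1) f3
    have i3' := Set.ncard_image_le (f := F 2 (-1)) f3
    have u1 := Set.ncard_union_le Dg ((F 0 1 '' FullTriples q r p (2 * H) ∪
      F 0 (-1) '' FullTriples q r p (2 * H)) ∪
      ((F 1 1 '' FullTriples q p r (2 * H) ∪ F 1 (-1) '' FullTriples q p r (2 * H)) ∪
      (F 2 1 '' FullTriples p r q (2 * H) ∪ F 2 (-1) '' FullTriples p r q (2 * H))))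
    have u2 := Set.ncard_union_le (F 0 1 '' FullTriples q r p (2 * H) ∪
      F 0 (-1) '' FullTriples q r p (2 * H))
      ((F 1 1 '' FullTriples q p r (2 * H) ∪ F 1 (-1) '' FullTriples q p r (2 * H)) ∪
      (F 2 1 '' FullTriples p r q (2 * H) ∪ F 2 (-1) '' FullTriples p r q (2 * H)))
    have u3 := Set.ncard_union_le (F 1 1 '' FullTriples q p r (2 * H) ∪
      F 1 (-1) '' FullTriples q p r (2 * H))
      (F 2 1 '' FullTriples p r q (2 * H) ∪ F 2 (-1) '' FullTriples p r q (2 * H))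
    have u4 := Set.ncard_union_le (F 0 1 '' FullTriples q r p (2 * H))
      (F 0 (-1) '' FullTriples q r p (2 * H))
    have u5 := Set.ncard_union_le (F 1 1 '' FullTriples q p r (2 * H))
      (F 1 (-1) '' FullTriples q p r (2 * H))
    have u6 := Set.ncard_union_le (F 2 1 '' FullTriples p r q (2 * H))
      (F 2 (-1) '' FullTriples p r q (2 * H))
    have hd := hDg.2
    have : (Points p q r H).ncard ≤ 6 + (2 * (FullTriples q r p (2 * H)).ncard +
        (2 * (FullTriples q p r (2 * H)).ncard + 2 * (FullTriples p r q (2 * H)).ncard)) := by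
      omega
    exact_mod_cast this
  have hHE : (1 : ℝ) ≤ (H : ℝ) ^ E := Real.one_le_rpow hH1 hE0
  show ((Points p q r H).ncard : ℝ) ≤ (6 + (2 * K1 + 2 * K2 + 2 * K3) * 2 ^ E) *
    (H : ℝ) ^ (ex p q r + ε * (1 / (p : ℝ) + 1 / q + 1 / r))
  rw [← hE]
  calc ((Points p q r H).ncard : ℝ) ≤ 6 + (2 * (K1 * (2 ^ E * (H : ℝ) ^ E)) +
        (2 * (K2 * (2 ^ E * (H : ℝ) ^ E)) + 2 * (K3 * (2 ^ E * (H : ℝ) ^ E)))) := by linarith
    _ ≤ 6 * (H : ℝ) ^ E + (2 * (K1 * (2 ^ E * (H : ℝ) ^ E)) +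
        (2 * (K2 * (2 ^ E * (H : ℝ) ^ E)) + 2 * (K3 * (2 ^ E * (H : ℝ) ^ E)))) := by linarith
    _ = _ := by ring

end Pool.Agent.Results.MP_4c7479_nt.OrbifoldPointsH6
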